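import Pool.Agent.helper82.UN.SpecP

set_option autoImplicit false

/-!
# UN (MP_cf4097_nt), block H, row PFC: the Fourier coefficients of the periodisation
-/

open NumberField Complex MeasureTheory nonZeroDivisors

namespace Pool.Agent.UN

theorem PFC_ee_norm (x : ℝ) : ‖ee x‖ = 1 := by
  rw [ee, Complex.norm_exp_ofReal_mul_I]

theorem PFC_ee_add (x y : ℝ) : ee (x + y) = ee x * ee y := by
  rw [ee, ee, ee, ← Complex.exp_add]
  congr 1
  push_cast
  ring

theorem PFC_ee_int (n : ℤ) : ee (n : ℝ) = 1 := by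
  rw [ee, Complex.exp_eq_one_iff]
  refine ⟨n, ?_⟩
  push_cast
  ring

theorem PFC_mono {ι : Type} [Fintype ι] (k : ι → ℤ) (t : ι → ℝ) :
    UnitAddTorus.mFourier (-k) (fun i => (t i : UnitAddCircle)) = ee (-(∑ i, (k i : ℝ) * t i)) := by
  have h1 : UnitAddTorus.mFourier (-k) (fun i => (t i : UnitAddCircle)) =
      ∏ i, fourier ((-k) i) (t i : UnitAddCircle) := rfl
  rw [h1, ee, ← Finset.sum_neg_distrib, Finset.mul_sum, Complex.ofReal_sum, Finset.sum_mul, Complex.exp_sum]
  refine Finset.prod_congr rfl fun i _ => ?_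
  rw [fourier_coe_apply]
  congr 1
  push_cast
  simp only [Pi.neg_apply, Int.cast_neg, div_one]
  ring

theorem PFC (hPBX : PBX_stmt) (hPIN : PIN_stmt) : PFC_stmt := by
  intro ι _ f G hf hdec hG k
  set g : (ι → ℝ) → ℂ := fun t => f t * ee (-(∑ i, (k i : ℝ) * t i)) with hg
  have hgc : Continuous g := by
    refine hf.mul ?_
    unfold ee
    fun_prop
  have hgd : ∃ u : (ι → ℤ) → ℝ, Summable u ∧ ∀ (k : ι → ℤ) (t : ι → ℝ), (∀ i, |t i| ≤ 1) → ‖g (t + zc k)‖ ≤ u k := by
    obtain ⟨u, hu, hb⟩ := hdec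
    refine ⟨u, hu, fun l t ht => ?_⟩
    show ‖f (t + zc l) * ee _‖ ≤ u l
    rw [norm_mul, PFC_ee_norm, mul_one]
    exact hb l t ht
  have hgi : Integrable g := hPIN ι g hgc hgd
  have hsum := hPBX ι g hgi
  have hper : ∀ (l : ι → ℤ) (t : ι → ℝ), g (t + zc l) = f (t + zc l) * ee (-(∑ i, (k i : ℝ) * t i)) := by
    intro l t
    show f (t + zc l) * ee (-(∑ i, (k i : ℝ) * (t + zc l) i)) = _
    congr 1
    have h1 : -(∑ i, (k i : ℝ) * (t + zc l) i) = -(∑ i, (k i : ℝ) * t i) + ((-(∑ i, k i * l i) : ℤ) : ℝ) := by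
      have h2 : ∑ i, (k i : ℝ) * (t + zc l) i = ∑ i, (k i : ℝ) * t i + ∑ i, (k i : ℝ) * (l i : ℝ) := by
        rw [← Finset.sum_add_distrib]
        refine Finset.sum_congr rfl fun i _ => ?_
        rw [Pi.add_apply, zc]
        ring
      rw [h2]
      push_cast
      ring
    rw [h1, PFC_ee_add, PFC_ee_int, mul_one]
  set Q : Set (ι → ℝ) := {t : ι → ℝ | ∀ i, t i ∈ Set.Ioc (0 : ℝ) 1} with hQ
  have hQpi : Q = Set.univ.pi (fun _ : ι => Set.Ioc (0 : ℝ) 1) := by
    ext t
    simp [hQ]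
  have hQm : MeasurableSet Q := by
    rw [hQpi]
    exact MeasurableSet.univ_pi fun _ => measurableSet_Ioc
  have hQv : (volume : Measure (ι → ℝ)) Q = 1 := by
    rw [hQpi, Real.volume_pi_Ioc]
    simp
  have hset : {x : ι → ℝ | ∀ i, x i ∈ Set.Ioc ((0 : ι → ℝ) i) ((0 : ι → ℝ) i + 1)} = Q := by
    ext t
    simp [hQ]
  have hint : ∀ t : ι → ℝ, UnitAddTorus.mFourier (-k) (fun i => (t i : UnitAddCircle)) •
      G (fun i => (t i : UnitAddCircle)) = ∑' l : ι → ℤ, g (t + zc l) := by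
    intro t
    rw [PFC_mono, hG, smul_eq_mul, mul_comm, ← tsum_mul_right]
    exact tsum_congr fun l => (hper l t).symm
  have h1 : UnitAddTorus.mFourierCoeff G k = ∫ t in Q, ∑' l : ι → ℤ, g (t + zc l) := by
    rw [UnitAddTorus.mFourierCoeff_eq_integral G k 0, hset]
    exact integral_congr_ae (Filter.Eventually.of_forall fun t => hint t)
  have hsum2 : HasSum (fun l : ι → ℤ => ∫ t in Q, g (t + zc l)) (∫ t in Q, ∑' l : ι → ℤ, g (t + zc l)) := by
    obtain ⟨u, hu, hb⟩ := hgd
    refine hasSum_integral_of_summable_integral_norm (fun l => ?_) ?_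
    · exact (hgi.comp_add_right (zc l)).integrableOn
    · refine Summable.of_norm_bounded hu fun l => ?_
      have h2 := norm_setIntegral_le_of_norm_le_const (μ := (volume : Measure (ι → ℝ))) (s := Q)
        (f := fun t => ‖g (t + zc l)‖) (C := u l) (by rw [hQv]; exact ENNReal.one_lt_top) (fun t ht => by
          rw [norm_norm]
          refine hb l t fun i => ?_
          have h3 := ht i
          rw [abs_of_pos h3.1]
          exact h3.2)
      have h4 : (volume : Measure (ι → ℝ)).real Q = 1 := by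
        rw [Measure.real, hQv]
        simp
      rwa [h4, mul_one] at h2
  rw [h1, hsum2.unique hsum, FT]

end Pool.Agent.UN
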