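import Pool.Agent.helper87.UN.SpecL

set_option autoImplicit false

/-!
# UN (MP_cf4097_nt), block H, row LDS: the Dirichlet series is bounded for `Re s ≥ 2`
-/

open NumberField Complex

namespace Pool.Agent.UN

theorem LDS (hFSM : FSM_stmt) : LDS_stmt := by
  intro K _ _ χ hχ h0
  obtain ⟨h1, h2⟩ := hFSM K χ hχ h0
  refine ⟨∑' a : Ideal (𝓞 K), ‖χ a‖ * Nm a ^ (-(3 / 2) : ℝ), fun s hs => ?_⟩
  refine tsum_of_norm_bounded h2.hasSum fun a => ?_
  rw [norm_mul]
  by_cases ha : χ a = 0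
  · rw [ha, norm_zero, zero_mul, zero_mul]
  · have hN : 1 ≤ Nm a := h1 a ha
    refine mul_le_mul_of_nonneg_left ?_ (norm_nonneg _)
    rw [Complex.norm_cpow_eq_rpow_re_of_pos (by linarith)]
    refine Real.rpow_le_rpow_of_exponent_le hN ?_
    rw [Complex.neg_re]
    linarith

end Pool.Agent.UN
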