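import Pool.Agent.helper87.UN.SpecL

set_option autoImplicit false

/-!
# UN (MP_cf4097_nt), block H, row LGP: the Gamma factors over the embeddings and over the places
-/

open NumberField Complex

namespace Pool.Agent.UN

section

variable {K : Type} [Field K] [NumberField K]

theorem LGP_mem (w : InfinitePlace K) (σ : K →+* ℂ) :
    InfinitePlace.mk σ = w ↔ σ = w.embedding ∨ σ = ComplexEmbedding.conjugate w.embedding := by
  constructor
  · intro h
    have h1 : InfinitePlace.mk w.embedding = InfinitePlace.mk σ := by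
      rw [InfinitePlace.mk_embedding, h]
    rcases InfinitePlace.mk_eq_iff.mp h1 with h2 | h2
    · exact Or.inl h2.symm
    · exact Or.inr h2.symm
  · rintro (h | h)
    · rw [h, InfinitePlace.mk_embedding]
    · rw [h, InfinitePlace.mk_conjugate_eq, InfinitePlace.mk_embedding]

theorem LGP_place (τ : InfinitePlace K → ℝ) (m : InfinitePlace K → ℤ)
    (e : InfinitePlace K → ℕ) (hm : ∀ w, w.IsReal → m w = 0) (he : ∀ w, w.IsComplex → e w = 0)
    (e' : (K →+* ℂ) → ℝ) (he1 : ∀ w : InfinitePlace K, e' w.embedding = e w)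
    (he2 : ∀ w : InfinitePlace K, w.IsComplex → e' (ComplexEmbedding.conjugate w.embedding) = 1)
    (w : InfinitePlace K) (s : ℂ) (S : Finset (K →+* ℂ)) (hS : ∀ σ, σ ∈ S ↔ InfinitePlace.mk σ = w) :
    ∏ σ ∈ S, Gammaℝ (s + τ (InfinitePlace.mk σ) * I + |(m (InfinitePlace.mk σ) : ℝ)| / 2 + e' σ) =
      (w.mult : ℂ) * (((Real.pi * (w.mult : ℝ) : ℝ) : ℂ) ^ (-(ex τ (aa m e) w + (w.mult : ℂ) * s / 2)) *
    Complex.Gamma (ex τ (aa m e) w + (w.mult : ℂ) * s / 2)) := by
  classical
  rcases w.isReal_or_isComplex with hw | hw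
  · have h1 : ComplexEmbedding.conjugate w.embedding = w.embedding :=
      ComplexEmbedding.isReal_iff.mp (InfinitePlace.isReal_iff.mp hw)
    have h2 : S = {w.embedding} := by
      ext σ
      rw [hS, LGP_mem, h1, Finset.mem_singleton, or_self]
    rw [h2, Finset.prod_singleton, InfinitePlace.mk_embedding, he1, hm w hw, InfinitePlace.mult_isReal ⟨w, hw⟩]
    have h3 : ex τ (aa m e) w + ((1 : ℕ) : ℂ) * s / 2 = (s + τ w * I + |((0 : ℤ) : ℝ)| / 2 + ((e w : ℝ) : ℂ)) / 2 := by
      rw [ex, aa, hm w hw, InfinitePlace.mult_isReal ⟨w, hw⟩]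
      push_cast
      simp
      ring
    rw [h3, Gammaℝ_def]
    push_cast
    rw [one_mul, mul_one, neg_div]
  · have h1 : ComplexEmbedding.conjugate w.embedding ≠ w.embedding := by
      intro h
      exact InfinitePlace.isComplex_iff.mp hw (ComplexEmbedding.isReal_iff.mpr h)
    have h2 : S = {w.embedding, ComplexEmbedding.conjugate w.embedding} := by
      ext σ
      rw [hS, LGP_mem, Finset.mem_insert, Finset.mem_singleton]
    rw [h2, Finset.prod_pair (Ne.symm h1), InfinitePlace.mk_conjugate_eq, InfinitePlace.mk_embedding, he1, he2 w hw,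
      he w hw, InfinitePlace.mult_isComplex ⟨w, hw⟩]
    have h3 : ex τ (aa m e) w + ((2 : ℕ) : ℂ) * s / 2 = s + τ w * I + |(m w : ℝ)| / 2 := by
      have h4 : ((aa m e w : ℕ) : ℂ) = ((|(m w : ℝ)| : ℝ) : ℂ) := by
        rw [aa, he w hw, zero_add]
        have h5 : (((m w).natAbs : ℕ) : ℝ) = |(m w : ℝ)| := by
          rw [← Int.cast_abs, ← Int.natCast_natAbs, Int.cast_natCast]
        rw [← h5]
        push_cast
        rfl
      rw [ex, h4, InfinitePlace.mult_isComplex ⟨w, hw⟩]
      push_cast
      ring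
    rw [h3]
    have h4 : s + τ w * I + |(m w : ℝ)| / 2 + (((0 : ℕ) : ℝ) : ℂ) = s + τ w * I + |(m w : ℝ)| / 2 := by
      push_cast
      ring
    rw [h4, Complex.ofReal_one, Complex.Gammaℝ_mul_Gammaℝ_add_one, Complex.Gammaℂ_def]
    push_cast
    rw [mul_comm (Real.pi : ℂ) 2]
    ring

end

theorem LGP : LGP_stmt := by
  classical
  intro K _ _ τ m e hm he1 he
  have hconj : ∀ w : InfinitePlace K, w.IsComplex → ComplexEmbedding.conjugate w.embedding ≠ w.embedding := by
    intro w hw h
    exact InfinitePlace.isComplex_iff.mp hw (ComplexEmbedding.isReal_iff.mpr h)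
  refine ⟨fun σ => if σ = (InfinitePlace.mk σ).embedding then (e (InfinitePlace.mk σ) : ℝ) else 1,
    ∏ w : InfinitePlace K, (w.mult : ℝ), Finset.prod_pos fun w _ => by
      exact_mod_cast InfinitePlace.mult_pos, fun σ => ?_, fun s => ?_⟩
  · show (if σ = (InfinitePlace.mk σ).embedding then (e (InfinitePlace.mk σ) : ℝ) else 1) = 0 ∨
      (if σ = (InfinitePlace.mk σ).embedding then (e (InfinitePlace.mk σ) : ℝ) else 1) = 1
    split_ifs
    · have h1 := he1 (InfinitePlace.mk σ)
      have h2 : e (InfinitePlace.mk σ) = 0 ∨ e (InfinitePlace.mk σ) = 1 := by omega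
      rcases h2 with h | h
      · left
        rw [h]
        norm_num
      · right
        rw [h]
        norm_num
    · right
      rfl
  · rw [← Finset.prod_fiberwise (s := Finset.univ) (g := fun σ : K →+* ℂ => InfinitePlace.mk σ), gf,
      Complex.ofReal_prod, ← Finset.prod_mul_distrib]
    refine Finset.prod_congr rfl fun w _ => ?_
    have h1 := LGP_place τ m e hm he
      (fun σ => if σ = (InfinitePlace.mk σ).embedding then (e (InfinitePlace.mk σ) : ℝ) else 1)
      (fun w => by
        show (if w.embedding = (InfinitePlace.mk w.embedding).embedding then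
          (e (InfinitePlace.mk w.embedding) : ℝ) else 1) = e w
        rw [InfinitePlace.mk_embedding, if_pos rfl])
      (fun w hw => by
        show (if ComplexEmbedding.conjugate w.embedding =
            (InfinitePlace.mk (ComplexEmbedding.conjugate w.embedding)).embedding then
          (e (InfinitePlace.mk (ComplexEmbedding.conjugate w.embedding)) : ℝ) else 1) = 1
        rw [InfinitePlace.mk_conjugate_eq, InfinitePlace.mk_embedding, if_neg (hconj w hw)])
      w s (Finset.univ.filter (fun σ : K →+* ℂ => InfinitePlace.mk σ = w))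
      (fun σ => by simp)
    rw [Complex.ofReal_natCast]
    exact h1

end Pool.Agent.UN
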