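import Pool.Agent.helper87.UN.SpecL
import Pool.Agent.helper67.FL.ZPL
import Pool.Agent.helper39.FL.ZGI
import Pool.Agent.helper8.FL.ZGR

set_option autoImplicit false

/-!
# UN (MP_cf4097_nt), block H, row LPG: polynomial growth in vertical strips
-/

open NumberField Complex

namespace Pool.Agent.UN

theorem LPG_exp (ι : Type) [Fintype ι] (μ : ι → ℂ) (L : ℂ → ℂ)
    (h2 : ∀ A : ℝ, ∃ C : ℝ, ∀ s : ℂ, |s.re| ≤ A → ‖L s‖ ≤ C * ∏ i, ‖(Gammaℝ (s + μ i))⁻¹‖) (A : ℝ) :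
    ∃ C : ℝ, 0 < C ∧ ∀ s : ℂ, |s.re| ≤ A → ‖L s‖ ≤ C * Real.exp (C * |s.im|) := by
  obtain ⟨M, hM⟩ := h2 A
  choose C hC hCj using fun j : ι => Pool.Agent.FL.ZGI (A + |(μ j).re|)
  have hP : 0 < ∏ j, (C j * Real.exp (C j * |(μ j).im|)) :=
    Finset.prod_pos fun j _ => mul_pos (hC j) (Real.exp_pos _)
  have hS : 0 ≤ ∑ j, C j := Finset.sum_nonneg fun j _ => (hC j).le
  refine ⟨|M| * (∏ j, (C j * Real.exp (C j * |(μ j).im|))) + (∑ j, C j) + 1, by positivity, fun s hs => ?_⟩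
  have h3 : ∏ j, ‖(Gammaℝ (s + μ j))⁻¹‖ ≤
      (∏ j, (C j * Real.exp (C j * |(μ j).im|))) * Real.exp ((∑ j, C j) * |s.im|) := by
    rw [Finset.sum_mul, Real.exp_sum, ← Finset.prod_mul_distrib]
    refine Finset.prod_le_prod (fun j _ => norm_nonneg _) fun j _ => ?_
    have h4 := hCj j (s + μ j) (by
      rw [Complex.add_re]
      refine (abs_add_le _ _).trans ?_
      linarith)
    refine h4.trans ?_
    rw [mul_assoc, ← Real.exp_add]
    refine mul_le_mul_of_nonneg_left (Real.exp_le_exp.2 ?_) (hC j).le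
    have h5 : |(s + μ j).im| ≤ |s.im| + |(μ j).im| := by
      rw [Complex.add_im]
      exact abs_add_le _ _
    have h6 := mul_le_mul_of_nonneg_left h5 (hC j).le
    linarith
  have h4 : Real.exp ((∑ j, C j) * |s.im|) ≤
      Real.exp ((|M| * (∏ j, (C j * Real.exp (C j * |(μ j).im|))) + (∑ j, C j) + 1) * |s.im|) := by
    refine Real.exp_le_exp.2 (mul_le_mul_of_nonneg_right ?_ (abs_nonneg _))
    have : 0 ≤ |M| * (∏ j, (C j * Real.exp (C j * |(μ j).im|))) := by positivity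
    linarith
  calc ‖L s‖ ≤ M * ∏ j, ‖(Gammaℝ (s + μ j))⁻¹‖ := hM s hs
    _ ≤ |M| * ∏ j, ‖(Gammaℝ (s + μ j))⁻¹‖ :=
        mul_le_mul_of_nonneg_right (le_abs_self M) (Finset.prod_nonneg fun j _ => norm_nonneg _)
    _ ≤ |M| * ((∏ j, (C j * Real.exp (C j * |(μ j).im|))) * Real.exp ((∑ j, C j) * |s.im|)) :=
        mul_le_mul_of_nonneg_left h3 (abs_nonneg _)
    _ = (|M| * (∏ j, (C j * Real.exp (C j * |(μ j).im|)))) * Real.exp ((∑ j, C j) * |s.im|) := by ring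
    _ ≤ (|M| * (∏ j, (C j * Real.exp (C j * |(μ j).im|))) + (∑ j, C j) + 1) * Real.exp ((∑ j, C j) * |s.im|) := by
        refine mul_le_mul_of_nonneg_right ?_ (Real.exp_pos _).le
        linarith
    _ ≤ _ := by
        refine mul_le_mul_of_nonneg_left h4 ?_
        positivity

theorem LPG_left (ι : Type) [Fintype ι] (μ : ι → ℂ) (L : ℂ → ℂ) (q : ℝ) (c : ℂ) (hq : 0 < q)
    (hμ : ∀ i, 0 ≤ (μ i).re) (hc : ‖c‖ = 1)
    (hfe : ∀ s : ℂ, (q : ℂ) ^ (s / 2) * L s * ∏ i, (Gammaℝ (1 - s + (starRingEnd ℂ) (μ i)))⁻¹ =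
      c * ((q : ℂ) ^ ((1 - s) / 2) * (starRingEnd ℂ) (L (1 - (starRingEnd ℂ) s)) * ∏ i, (Gammaℝ (s + μ i))⁻¹))
    (h3 : ∃ C : ℝ, ∀ s : ℂ, 2 ≤ s.re → ‖L s‖ ≤ C) (N : ℕ) (hN : 2 ≤ N) :
    ∃ C : ℝ, 0 < C ∧ ∀ s : ℂ, s.re = -((N : ℝ) - 1 / 2) →
        ‖L s‖ ≤ C * (1 + |s.im|) ^ (N * Fintype.card ι) := by
  obtain ⟨C0, hls0⟩ := h3
  obtain ⟨C1, hC1, hls⟩ : ∃ C1 : ℝ, 0 < C1 ∧ ∀ s : ℂ, 2 ≤ s.re → ‖L s‖ ≤ C1 :=
    ⟨|C0| + 1, by positivity, fun s hs => (hls0 s hs).trans (by linarith [le_abs_self C0])⟩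
  have hN' : (2 : ℝ) ≤ N := by exact_mod_cast hN
  refine ⟨q ^ (((N : ℝ) + 1 / 2) / 2) / q ^ (-((N : ℝ) - 1 / 2) / 2) * C1 *
    ∏ j, (3 * (N : ℝ) + ‖μ j‖ + 1) ^ N, ?_, fun s hs => ?_⟩
  · have h1 : 0 < ∏ j, (3 * (N : ℝ) + ‖μ j‖ + 1) ^ N :=
      Finset.prod_pos fun j _ => by positivity
    positivity
  have hq1 : ‖(q : ℂ) ^ (s / 2)‖ = q ^ (-((N : ℝ) - 1 / 2) / 2) := by
    rw [Complex.norm_cpow_eq_rpow_re_of_pos hq]
    have h3 : (s / 2 : ℂ).re = s.re / 2 := by simp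
    rw [h3, hs]
  have hq2 : ‖(q : ℂ) ^ ((1 - s) / 2)‖ = q ^ (((N : ℝ) + 1 / 2) / 2) := by
    rw [Complex.norm_cpow_eq_rpow_re_of_pos hq]
    have h3 : ((1 - s) / 2 : ℂ).re = (1 - s.re) / 2 := by simp
    rw [h3, hs]
    congr 1
    ring
  have hre : (1 - s).re = (N : ℝ) + 1 / 2 := by
    rw [Complex.sub_re, hs, Complex.one_re]
    ring
  have hL : ‖L (1 - (starRingEnd ℂ) s)‖ ≤ C1 := by
    refine hls _ ?_
    have h3 : (1 - (starRingEnd ℂ) s).re = 1 - s.re := by simp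
    rw [h3, hs]
    linarith
  have h1 := congrArg norm (hfe s)
  rw [norm_mul, norm_mul, norm_mul, norm_mul, norm_mul, hq1, hq2, norm_prod, norm_prod, hc, one_mul,
    Complex.norm_conj] at h1
  have hne : ∀ j, Gammaℝ (1 - s + (starRingEnd ℂ) (μ j)) ≠ 0 := by
    intro j
    refine Complex.Gammaℝ_ne_zero_of_re_pos ?_
    rw [Complex.add_re, hre, Complex.conj_re]
    have := hμ j
    linarith
  have h2 : (∏ j, ‖(Gammaℝ (1 - s + (starRingEnd ℂ) (μ j)))⁻¹‖) * (∏ j, ‖Gammaℝ (1 - s + (starRingEnd ℂ) (μ j))‖) =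
      1 := by
    rw [← Finset.prod_mul_distrib]
    refine Finset.prod_eq_one fun j _ => ?_
    rw [norm_inv, inv_mul_cancel₀ (norm_ne_zero_iff.2 (hne j))]
  have h3 : (∏ j, ‖(Gammaℝ (s + μ j))⁻¹‖) * (∏ j, ‖Gammaℝ (1 - s + (starRingEnd ℂ) (μ j))‖) ≤
      (∏ j, (3 * (N : ℝ) + ‖μ j‖ + 1) ^ N) * (1 + |s.im|) ^ (N * Fintype.card ι) := by
    have h4 : (∏ j : ι, (3 * (N : ℝ) + ‖μ j‖ + 1) ^ N) * (1 + |s.im|) ^ (N * Fintype.card ι) =
        ∏ j : ι, ((3 * (N : ℝ) + ‖μ j‖ + 1) * (1 + |s.im|)) ^ N := by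
      simp_rw [mul_pow]
      rw [Finset.prod_mul_distrib, Finset.prod_const, Finset.card_univ, ← pow_mul]
    rw [h4, ← Finset.prod_mul_distrib]
    refine Finset.prod_le_prod (fun j _ => by positivity) fun j _ => ?_
    have h5 : (starRingEnd ℂ) (1 - s + (starRingEnd ℂ) (μ j)) = s + μ j + 2 * (N : ℂ) := by
      apply Complex.ext
      · have : ((starRingEnd ℂ) (1 - s + (starRingEnd ℂ) (μ j))).re = 1 - s.re + (μ j).re := by simp
        rw [this]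
        have : (s + μ j + 2 * (N : ℂ)).re = s.re + (μ j).re + 2 * N := by simp
        rw [this, hs]
        ring
      · simp
    have h6 : ‖Gammaℝ (1 - s + (starRingEnd ℂ) (μ j))‖ = ‖Gammaℝ (s + μ j + 2 * (N : ℂ))‖ := by
      rw [← Pool.Agent.FL.ZPL_conj, h5]
    rw [h6, mul_comm]
    refine (Pool.Agent.FL.ZGR N (s + μ j)).trans ?_
    refine pow_le_pow_left₀ (by positivity) ?_ N
    have h7 : ‖s + μ j‖ ≤ (N : ℝ) + ‖μ j‖ + |s.im| := by
      refine (norm_add_le _ _).trans ?_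
      have h8 := Complex.norm_le_abs_re_add_abs_im s
      rw [hs] at h8
      have h10 : |-((N : ℝ) - 1 / 2)| ≤ (N : ℝ) := by
        rw [abs_le]
        constructor <;> linarith
      linarith
    have h8 := abs_nonneg s.im
    have h9 := norm_nonneg (μ j)
    nlinarith [mul_nonneg h9 h8, mul_nonneg (by linarith : (0 : ℝ) ≤ N) h8]
  have hqp : 0 < q ^ (-((N : ℝ) - 1 / 2) / 2) := Real.rpow_pos_of_pos hq _
  have hqp2 : 0 < q ^ (((N : ℝ) + 1 / 2) / 2) := Real.rpow_pos_of_pos hq _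
  have h4 : q ^ (-((N : ℝ) - 1 / 2) / 2) * ‖L s‖ =
      q ^ (((N : ℝ) + 1 / 2) / 2) * ‖L (1 - (starRingEnd ℂ) s)‖ *
        ((∏ j, ‖(Gammaℝ (s + μ j))⁻¹‖) * (∏ j, ‖Gammaℝ (1 - s + (starRingEnd ℂ) (μ j))‖)) := by
    calc q ^ (-((N : ℝ) - 1 / 2) / 2) * ‖L s‖
        = q ^ (-((N : ℝ) - 1 / 2) / 2) * ‖L s‖ *
          ((∏ j, ‖(Gammaℝ (1 - s + (starRingEnd ℂ) (μ j)))⁻¹‖) *
            (∏ j, ‖Gammaℝ (1 - s + (starRingEnd ℂ) (μ j))‖)) := by
          rw [h2, mul_one]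
      _ = _ := by
          rw [← mul_assoc, h1]
          ring
  have h5 : q ^ (-((N : ℝ) - 1 / 2) / 2) * ‖L s‖ ≤
      q ^ (((N : ℝ) + 1 / 2) / 2) * C1 *
        ((∏ j, (3 * (N : ℝ) + ‖μ j‖ + 1) ^ N) * (1 + |s.im|) ^ (N * Fintype.card ι)) := by
    rw [h4]
    refine mul_le_mul (mul_le_mul_of_nonneg_left hL hqp2.le) h3 (by positivity) (by positivity)
  have h6 : ‖L s‖ ≤ q ^ (((N : ℝ) + 1 / 2) / 2) * C1 *
        ((∏ j, (3 * (N : ℝ) + ‖μ j‖ + 1) ^ N) * (1 + |s.im|) ^ (N * Fintype.card ι)) /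
          q ^ (-((N : ℝ) - 1 / 2) / 2) := by
    rw [le_div_iff₀ hqp, mul_comm]
    exact h5
  refine h6.trans (le_of_eq ?_)
  field_simp

theorem LPG : LPG_stmt := by
  intro ι _ μ L q c hq hμ hc hent hfe hG2 hG3 A
  obtain ⟨N, hN2, hNA⟩ : ∃ N : ℕ, 2 ≤ N ∧ |A| + 2 ≤ (N : ℝ) :=
    ⟨⌈|A|⌉₊ + 2, by omega, by push_cast; linarith [Nat.le_ceil |A|]⟩
  have hN' : (2 : ℝ) ≤ N := by exact_mod_cast hN2
  obtain ⟨C2, hC2, hleft⟩ := LPG_left ι μ L q c hq hμ hc hfe hG3 N hN2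
  obtain ⟨C0, hls0⟩ := hG3
  obtain ⟨C3, hC3, hls⟩ : ∃ C1 : ℝ, 0 < C1 ∧ ∀ s : ℂ, 2 ≤ s.re → ‖L s‖ ≤ C1 :=
    ⟨|C0| + 1, by positivity, fun s hs => (hls0 s hs).trans (by linarith [le_abs_self C0])⟩
  obtain ⟨C4, hC4, hexp⟩ := LPG_exp ι μ L hG2 (N : ℝ)
  set n : ℕ := Fintype.card ι with hn
  set G : ℂ → ℂ := fun s => L s * ((s - (2 * (N : ℂ) + 1))⁻¹) ^ (N * n) with hG
  have hre : ∀ s : ℂ, (s - (2 * (N : ℂ) + 1)).re = s.re - (2 * N + 1) := by intro s; simp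
  have him : ∀ s : ℂ, (s - (2 * (N : ℂ) + 1)).im = s.im := by intro s; simp
  have hfar : ∀ s : ℂ, s.re ≤ N → 1 ≤ ‖s - (2 * (N : ℂ) + 1)‖ := by
    intro s hs
    refine le_trans ?_ (Complex.abs_re_le_norm _)
    rw [hre, abs_of_nonpos (by linarith)]
    linarith
  have hfar0 : ∀ s : ℂ, s.re ≤ N → s - (2 * (N : ℂ) + 1) ≠ 0 := by
    intro s hs h0
    have := hfar s hs
    rw [h0, norm_zero] at this
    linarith
  have hclos : closure (Complex.re ⁻¹' Set.Ioo (-((N : ℝ) - 1 / 2)) (N : ℝ)) ⊆ {s : ℂ | s.re ≤ N} := by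
    refine closure_minimal (fun s hs => hs.2.le) (isClosed_le Complex.continuous_re continuous_const)
  have hd : DiffContOnCl ℂ G (Complex.re ⁻¹' Set.Ioo (-((N : ℝ) - 1 / 2)) (N : ℝ)) := by
    refine DifferentiableOn.diffContOnCl fun s hs => DifferentiableAt.differentiableWithinAt ?_
    have hd1 : DifferentiableAt ℂ (fun s : ℂ => s - (2 * (N : ℂ) + 1)) s :=
      differentiableAt_id.sub_const _
    have hd2 : DifferentiableAt ℂ (fun s : ℂ => (s - (2 * (N : ℂ) + 1))⁻¹) s :=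
      hd1.fun_inv (hfar0 s (hclos hs))
    exact (hent s).fun_mul (hd2.fun_pow _)
  have hinv : ∀ s : ℂ, s.re ≤ N → ‖((s - (2 * (N : ℂ) + 1))⁻¹) ^ (N * n)‖ ≤ 1 := by
    intro s hs
    rw [norm_pow, norm_inv]
    exact pow_le_one₀ (by positivity) (inv_le_one_of_one_le₀ (hfar s hs))
  have hba : (0 : ℝ) < (N : ℝ) - -((N : ℝ) - 1 / 2) := by linarith
  have hc : 0 < Real.pi / ((N : ℝ) - -((N : ℝ) - 1 / 2)) / 2 := by positivity
  have hmain : ∀ s : ℂ, -((N : ℝ) - 1 / 2) ≤ s.re → s.re ≤ N → ‖G s‖ ≤ C2 * 2 ^ (N * n) + C3 := by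
    intro s h1 h2
    refine PhragmenLindelof.vertical_strip hd ?_ ?_ ?_ h1 h2
    · refine ⟨Real.pi / ((N : ℝ) - -((N : ℝ) - 1 / 2)) / 2, half_lt_self (by positivity),
        C4 / (Real.pi / ((N : ℝ) - -((N : ℝ) - 1 / 2)) / 2), ?_⟩
      refine Asymptotics.IsBigO.of_bound C4 ?_
      refine Filter.Eventually.filter_mono inf_le_right (Filter.eventually_principal.2 fun z hz => ?_)
      have hz1 : z.re ≤ N := hz.2.le
      have hz2 : |z.re| ≤ (N : ℝ) := by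
        rw [abs_le]
        have := hz.1
        constructor <;> linarith
      have h3 : ‖G z‖ ≤ C4 * Real.exp (C4 * |z.im|) := by
        rw [hG]
        simp only [norm_mul]
        calc ‖L z‖ * ‖((z - (2 * (N : ℂ) + 1))⁻¹) ^ (N * n)‖
            ≤ ‖L z‖ * 1 := mul_le_mul_of_nonneg_left (hinv z hz1) (norm_nonneg _)
          _ ≤ _ := by rw [mul_one]; exact hexp z hz2
      refine h3.trans (mul_le_mul_of_nonneg_left ?_ hC4.le)
      rw [Real.norm_eq_abs, abs_of_pos (Real.exp_pos _)]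
      refine Real.exp_le_exp.2 ?_
      set c := Real.pi / ((N : ℝ) - -((N : ℝ) - 1 / 2)) / 2 with hcdef
      have h4 : c * |z.im| ≤ Real.exp (c * |z.im|) := by
        have := Real.add_one_le_exp (c * |z.im|)
        linarith
      calc C4 * |z.im| = C4 / c * (c * |z.im|) := by field_simp
        _ ≤ C4 / c * Real.exp (c * |z.im|) := mul_le_mul_of_nonneg_left h4 (by positivity)
    · intro z hz
      have h3 := hleft z hz
      have h4 : 1 + |z.im| ≤ 2 * ‖z - (2 * (N : ℂ) + 1)‖ := by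
        have h5 := hfar z (by rw [hz]; linarith)
        have h6 := Complex.abs_im_le_norm (z - (2 * (N : ℂ) + 1))
        rw [him] at h6
        linarith
      have h5 : 0 < ‖z - (2 * (N : ℂ) + 1)‖ := lt_of_lt_of_le one_pos (hfar z (by rw [hz]; linarith))
      rw [hG]
      simp only [norm_mul, norm_pow, norm_inv]
      rw [inv_pow, ← div_eq_mul_inv]
      refine (div_le_iff₀ (by positivity)).2 ?_
      refine h3.trans ?_
      have h6 : (1 + |z.im|) ^ (N * n) ≤ 2 ^ (N * n) * ‖z - (2 * (N : ℂ) + 1)‖ ^ (N * n) := by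
        rw [← mul_pow]
        exact pow_le_pow_left₀ (by positivity) h4 _
      calc C2 * (1 + |z.im|) ^ (N * n) ≤ C2 * (2 ^ (N * n) * ‖z - (2 * (N : ℂ) + 1)‖ ^ (N * n)) :=
            mul_le_mul_of_nonneg_left h6 hC2.le
        _ = C2 * 2 ^ (N * n) * ‖z - (2 * (N : ℂ) + 1)‖ ^ (N * n) := by ring
        _ ≤ (C2 * 2 ^ (N * n) + C3) * ‖z - (2 * (N : ℂ) + 1)‖ ^ (N * n) :=
            mul_le_mul_of_nonneg_right (by linarith) (by positivity)
    · intro z hz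
      have h3 : ‖L z‖ ≤ C3 := hls z (by rw [hz]; exact hN')
      rw [hG]
      simp only [norm_mul]
      calc ‖L z‖ * ‖((z - (2 * (N : ℂ) + 1))⁻¹) ^ (N * n)‖
          ≤ ‖L z‖ * 1 := mul_le_mul_of_nonneg_left (hinv z hz.le) (norm_nonneg _)
        _ ≤ C3 := by rw [mul_one]; exact h3
        _ ≤ C2 * 2 ^ (N * n) + C3 := by
          have : 0 < C2 * 2 ^ (N * n) := by positivity
          linarith
  refine ⟨(C2 * 2 ^ (N * n) + C3) * (3 * N + 1) ^ (N * n) + ((N * n : ℕ) : ℝ), fun s hs => ?_⟩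
  have hA := (hs.trans (le_abs_self A))
  have hs1 : -((N : ℝ) - 1 / 2) ≤ s.re := by
    have := (abs_le.1 hA).1
    linarith
  have hs2 : s.re ≤ N := by
    have := (abs_le.1 hA).2
    linarith
  have h1 := hmain s hs1 hs2
  have h2 : L s = G s * (s - (2 * (N : ℂ) + 1)) ^ (N * n) := by
    rw [hG]
    simp only
    rw [mul_assoc, ← mul_pow, inv_mul_cancel₀ (hfar0 s hs2), one_pow, mul_one]
  have h3 : ‖s - (2 * (N : ℂ) + 1)‖ ≤ (3 * N + 1) * (1 + |s.im|) := by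
    refine (Complex.norm_le_abs_re_add_abs_im _).trans ?_
    rw [hre, him, abs_of_nonpos (by linarith)]
    have := abs_nonneg s.im
    nlinarith
  have hK : 0 ≤ (C2 * 2 ^ (N * n) + C3) := by positivity
  rw [h2, norm_mul, norm_pow]
  have h4 : (1 : ℝ) ≤ 1 + |s.im| := by linarith [abs_nonneg s.im]
  calc ‖G s‖ * ‖s - (2 * (N : ℂ) + 1)‖ ^ (N * n)
      ≤ (C2 * 2 ^ (N * n) + C3) * ((3 * N + 1) * (1 + |s.im|)) ^ (N * n) :=
        mul_le_mul h1 (pow_le_pow_left₀ (norm_nonneg _) h3 _) (by positivity) hK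
    _ = ((C2 * 2 ^ (N * n) + C3) * (3 * N + 1) ^ (N * n)) * (1 + |s.im|) ^ ((N * n : ℕ) : ℝ) := by
        rw [mul_pow, Real.rpow_natCast]
        ring
    _ ≤ ((C2 * 2 ^ (N * n) + C3) * (3 * N + 1) ^ (N * n) + ((N * n : ℕ) : ℝ)) *
        (1 + |s.im|) ^ ((C2 * 2 ^ (N * n) + C3) * (3 * N + 1) ^ (N * n) + ((N * n : ℕ) : ℝ)) := by
        refine mul_le_mul ?_ (Real.rpow_le_rpow_of_exponent_le h4 ?_) (by positivity) (by positivity)
        · have : (0 : ℝ) ≤ ((N * n : ℕ) : ℝ) := Nat.cast_nonneg _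
          linarith
        · have : 0 ≤ (C2 * 2 ^ (N * n) + C3) * (3 * (N : ℝ) + 1) ^ (N * n) := by positivity
          linarith

end Pool.Agent.UN
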