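import Pool.Agent.helper1.UN.SpecU

set_option autoImplicit false

/-!
# UN (MP_cf4097_nt), block H, row VTQ
-/

open NumberField Complex MeasureTheory NumberField.Units NumberField.Units.dirichletUnitTheorem

open scoped Classical

namespace Pool.Agent.UN

theorem VTQ (hVLV : VLV_stmt) : VTQ_stmt := by
  intro K _ _ χ τ a ρ l u x
  obtain ⟨-, hadd, -, hlu, -, -, -⟩ := hVLV K
  have h1 : Ideal.span {(u : 𝓞 K) * x} = Ideal.span {x} := Ideal.span_singleton_mul_left_unit u.isUnit x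
  have h2 : (fun w : InfinitePlace K => (w (((u : 𝓞 K) * x : 𝓞 K) : K)) ^ 2 * Yl ρ l w) =
      fun w : InfinitePlace K => (w (x : K)) ^ 2 * Yl ρ (l + lu u) w := by
    funext w
    have h3 : (((u : 𝓞 K) * x : 𝓞 K) : K) = ((u : 𝓞 K) : K) * (x : K) := rfl
    have h4 : ((u : 𝓞 K) : K) ≠ 0 := by
      intro h
      exact u.ne_zero (RingOfIntegers.ext h)
    have h5 : 0 < w ((u : 𝓞 K) : K) := InfinitePlace.pos_iff.mpr h4
    rw [Yl, Yl, hadd, hlu, h3, map_mul, mul_add, Real.exp_add]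
    have h6 : Real.exp (2 * Real.log (w ((u : 𝓞 K) : K))) = (w ((u : 𝓞 K) : K)) ^ 2 := by
      rw [mul_comm, Real.exp_mul, Real.exp_log h5]
      norm_num
    rw [h6]
    ring
  rw [tq, tq, h1, h2]

end Pool.Agent.UN
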